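import Pool.Agent.TH536.EW.Arc
import Pool.Agent.H771R3.EN.INT
import Pool.Agent.H771R3.EN.SIZ
import Pool.Agent.H771R3.EN.PF
import Pool.Agent.H771R3.EN.EXP
import Pool.Agent.H771R3.EN.PRO
import Pool.Agent.H771R3.EN.FORM
import Pool.Agent.H771R3.EN.PAR

/-!
# Rational approximation of `a e^n + P(n)` for almost all `n`, arbitrary `a`
-/

set_option autoImplicit false

namespace Pool.Agent.Y928.EN

open Finset Pool.Agent.H771R3.EN Pool.Agent.TH536.EW

/-- the exceptional condition -/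
def Exc (δ a Q l : ℝ) (P : Polynomial ℝ) (n : ℕ) : Prop :=
  ∃ (q : ℕ) (p : ℤ), 1 ≤ q ∧ (q : ℝ) ≤ Q ∧
    |a * Real.exp n + P.eval (n : ℝ) - p / q| < (|a| * Real.exp n) ^ (-δ) * Q ^ (-l)

open Classical in
theorem arcQ (D : ℕ) : ∃ A : ℝ, 0 < A ∧
    ∀ (δ a Q : ℝ) (P : Polynomial ℝ) (N : ℕ), 0 < δ → δ ≤ 1 → 1 ≤ |a| → 1 ≤ Q →
      P.natDegree ≤ D → 1 ≤ N →
      (((Icc 1 N).filter (Exc δ a Q (96 * 2 ^ D / δ) P)).card : ℝ) ≤
        A / δ * (N : ℝ) ^ (1 - δ ^ 2 / (12800 * 2 ^ D)) := by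
  obtain ⟨A, hA, h⟩ := arc (t_FORM t_INT t_SIZ t_PF t_EXP t_PRO) t_VB t_PAR (D + 1)
  refine ⟨4 * A, by positivity, fun δ a Q P N hδ hδ1 ha hQ hP hN => ?_⟩
  have hdeg : P.degree < ((D + 1 : ℕ) : WithBot ℕ) := by
    refine lt_of_le_of_lt Polynomial.degree_le_natDegree ?_
    exact_mod_cast Nat.lt_succ_of_le hP
  have h2 := h (δ / 4) a Q P N (by positivity) (by linarith) hN ha hQ hdeg
  have e1 : A / (δ / 4) = 4 * A / δ := by
    field_simp
  have e2 : (δ / 4) ^ 2 / (400 * 2 ^ (D + 1)) = δ ^ 2 / (12800 * 2 ^ D) := by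
    rw [pow_succ (2 : ℝ) D]
    field_simp
    ring
  rw [e1, e2] at h2
  refine le_trans ?_ h2
  have hsub : (Icc 1 N).filter (Exc δ a Q (96 * 2 ^ D / δ) P) ⊆
      (Icc 1 N).filter (Bad a P Q (δ / 4) (12 * 2 ^ (D + 1))) := by
    intro n hn
    rw [mem_filter] at hn ⊢
    obtain ⟨hn1, q, p, hq1, hq2, hlt⟩ := hn
    refine ⟨hn1, q, p, hq1, hq2, ?_⟩
    have e3 : -(4 * (δ / 4)) = -δ := by ring
    have e4 : 12 * (2 : ℝ) ^ (D + 1) / (δ / 4) = 96 * 2 ^ D / δ := by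
      rw [pow_succ (2 : ℝ) D]
      field_simp
      ring
    rw [e3, e4]
    exact hlt.le
  exact_mod_cast card_le_card hsub

open Classical in
/-- the same for arbitrary `a` -/
theorem arcAny (D : ℕ) : ∃ A : ℝ, 0 < A ∧
    ∀ (δ a Q : ℝ) (P : Polynomial ℝ) (N : ℕ), 0 < δ → δ ≤ 1 → a ≠ 0 → 1 ≤ Q →
      P.natDegree ≤ D → 1 ≤ N →
      (((Icc 1 N).filter (fun n : ℕ => 1 ≤ |a| * Real.exp n ∧ Exc δ a Q (96 * 2 ^ D / δ) P n)).card : ℝ) ≤
        A / δ * (N : ℝ) ^ (1 - δ ^ 2 / (12800 * 2 ^ D)) + 1 := by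
  obtain ⟨A, hA, h⟩ := arcQ D
  refine ⟨A, hA, fun δ a Q P N hδ hδ1 ha hQ hP hN => ?_⟩
  have ha0 : 0 < |a| := abs_pos.2 ha
  have hNR : (1 : ℝ) ≤ N := by exact_mod_cast hN
  have hexp : 0 ≤ 1 - δ ^ 2 / (12800 * 2 ^ D) := by
    have h1 : (1 : ℝ) ≤ 2 ^ D := one_le_pow₀ (by norm_num)
    have h2 : δ ^ 2 ≤ 1 := by nlinarith
    have : δ ^ 2 / (12800 * 2 ^ D) ≤ 1 := by
      rw [div_le_one (by positivity)]
      nlinarith
    linarith
  have hNn : 0 ≤ A / δ * (N : ℝ) ^ (1 - δ ^ 2 / (12800 * 2 ^ D)) := by positivity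
  rcases le_or_gt 1 |a| with h1 | h1
  · have h2 := h δ a Q P N hδ hδ1 h1 hQ hP hN
    have h3 : ((Icc 1 N).filter (fun n : ℕ => 1 ≤ |a| * Real.exp n ∧ Exc δ a Q (96 * 2 ^ D / δ) P n)).card ≤
        ((Icc 1 N).filter (Exc δ a Q (96 * 2 ^ D / δ) P)).card := by
      apply card_le_card
      intro n hn
      rw [mem_filter] at hn ⊢
      exact ⟨hn.1, hn.2.2⟩
    have h4 : (((Icc 1 N).filter (fun n : ℕ => 1 ≤ |a| * Real.exp n ∧
      Exc δ a Q (96 * 2 ^ D / δ) P n)).card : ℝ) ≤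
        (((Icc 1 N).filter (Exc δ a Q (96 * 2 ^ D / δ) P)).card : ℝ) := by exact_mod_cast h3
    linarith
  obtain ⟨n0, hn0⟩ : ∃ n0 : ℕ, n0 = ⌈-Real.log |a|⌉₊ := ⟨_, rfl⟩
  have hn0le : -Real.log |a| ≤ n0 := by rw [hn0]; exact Nat.le_ceil _
  have hge : ∀ n : ℕ, 1 ≤ |a| * Real.exp n → n0 ≤ n := by
    intro n hn
    rw [hn0]
    apply Nat.ceil_le.2
    have h2 := Real.log_le_log one_pos hn
    rw [Real.log_one, Real.log_mul ha0.ne' (Real.exp_pos _).ne', Real.log_exp] at h2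
    linarith
  rcases le_or_gt N n0 with hN0 | hN0
  · have h2 : ((Icc 1 N).filter (fun n : ℕ => 1 ≤ |a| * Real.exp n ∧
        Exc δ a Q (96 * 2 ^ D / δ) P n)) ⊆ {n0} := by
      intro n hn
      rw [mem_filter, mem_Icc] at hn
      have := hge n hn.2.1
      rw [mem_singleton]
      omega
    have h3 := card_le_card h2
    rw [card_singleton] at h3
    have h4 : (((Icc 1 N).filter (fun n : ℕ => 1 ≤ |a| * Real.exp n ∧
        Exc δ a Q (96 * 2 ^ D / δ) P n)).card : ℝ) ≤ 1 := by exact_mod_cast h3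
    linarith
  · obtain ⟨P', hP'⟩ : ∃ P' : Polynomial ℝ, P' = P.comp (Polynomial.X + Polynomial.C (n0 : ℝ)) :=
      ⟨_, rfl⟩
    have hP'd : P'.natDegree ≤ D := by
      rw [hP']
      refine Polynomial.natDegree_comp_le.trans ?_
      rw [Polynomial.natDegree_X_add_C, mul_one]
      exact hP
    have ha' : 1 ≤ |a * Real.exp n0| := by
      rw [abs_mul, abs_of_pos (Real.exp_pos _)]
      rw [← Real.log_nonneg_iff (by positivity), Real.log_mul ha0.ne' (Real.exp_pos _).ne',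
        Real.log_exp]
      linarith
    have h2 := h δ (a * Real.exp n0) Q P' (N - n0) hδ hδ1 ha' hQ hP'd (by omega)
    have hsub : ((Icc 1 N).filter (fun n : ℕ => 1 ≤ |a| * Real.exp n ∧
        Exc δ a Q (96 * 2 ^ D / δ) P n)) ⊆
        insert n0 (((Icc 1 (N - n0)).filter (Exc δ (a * Real.exp n0) Q (96 * 2 ^ D / δ) P')).image
          (fun n => n + n0)) := by
      intro n hn
      rw [mem_filter, mem_Icc] at hn
      have h3 := hge n hn.2.1
      rw [mem_insert, mem_image]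
      rcases h3.eq_or_lt with h4 | h4
      · left; exact h4.symm
      · right
        refine ⟨n - n0, ?_, by omega⟩
        rw [mem_filter, mem_Icc]
        refine ⟨⟨by omega, by omega⟩, ?_⟩
        obtain ⟨q, p, hq1, hq2, hlt⟩ := hn.2.2
        refine ⟨q, p, hq1, hq2, ?_⟩
        have e1 : ((n - n0 : ℕ) : ℝ) = n - n0 := by rw [Nat.cast_sub h3]
        have e2 : a * Real.exp n0 * Real.exp ((n - n0 : ℕ) : ℝ) = a * Real.exp n := by
          rw [mul_assoc, ← Real.exp_add, e1]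
          congr 2
          ring
        have e3 : P'.eval ((n - n0 : ℕ) : ℝ) = P.eval (n : ℝ) := by
          rw [hP', Polynomial.eval_comp, e1]
          simp
        have e4 : |a * Real.exp n0| * Real.exp ((n - n0 : ℕ) : ℝ) = |a| * Real.exp n := by
          rw [abs_mul, abs_of_pos (Real.exp_pos _), mul_assoc, ← Real.exp_add, e1]
          congr 2
          ring
        rw [e2, e3, e4]
        exact hlt
    have h3 := (card_le_card hsub).trans ((card_insert_le _ _).trans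
      (Nat.add_le_add_right card_image_le 1))
    have h4 : (((Icc 1 N).filter (fun n : ℕ => 1 ≤ |a| * Real.exp n ∧
        Exc δ a Q (96 * 2 ^ D / δ) P n)).card : ℝ) ≤
        (((Icc 1 (N - n0)).filter (Exc δ (a * Real.exp n0) Q (96 * 2 ^ D / δ) P')).card : ℝ) + 1 := by
      exact_mod_cast h3
    have h5 : ((N - n0 : ℕ) : ℝ) ^ (1 - δ ^ 2 / (12800 * 2 ^ D)) ≤
        (N : ℝ) ^ (1 - δ ^ 2 / (12800 * 2 ^ D)) := by
      apply Real.rpow_le_rpow (Nat.cast_nonneg _) _ hexp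
      exact_mod_cast Nat.sub_le _ _
    have h6 := mul_le_mul_of_nonneg_left h5 (by positivity : 0 ≤ A / δ)
    linarith

end Pool.Agent.Y928.EN
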