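import Pool.Agent.Y928.EN.Core
import Pool.Agent.Y928.EN.Arc

/-!
# Blocks of digits of `a e^n + P(n)` for almost all `n`
-/

set_option autoImplicit false

namespace Pool.Agent.Y928.EN

open Finset
open Pool.Agent.H831R3.LC (W dig dig_abs)
open Pool.Agent.W47.JL (err err_ge)

/-- the digit at the integer place `i` -/
noncomputable def zdig (b : ℕ) (x : ℝ) (i : ℤ) : ℤ := ⌊x * (b : ℝ) ^ i⌋ % (b : ℤ)

lemma zdig_eq (b : ℕ) (hb : 2 ≤ b) (x : ℝ) (u : ℤ) (i : ℕ) :
    zdig b x (u + i) = dig (x * (b : ℝ) ^ u) b i := by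
  have hb0 : (b : ℝ) ≠ 0 := by positivity
  unfold zdig dig
  rw [zpow_add₀ hb0, zpow_natCast, mul_assoc]

/-- some block of at least `δ N` digits of `x` with small linear complexity -/
def Low (b N : ℕ) (δ γ s x : ℝ) : Prop :=
  ∃ (u : ℤ) (L m : ℕ) (c : ℕ → ℚ), 1 ≤ s * (b : ℝ) ^ u ∧ δ * N ≤ L ∧ (u : ℝ) + L ≤ N / δ ∧
    (m : ℝ) ≤ γ * L ∧ ∀ i : ℕ, 1 ≤ i → i + m ≤ L →
      (zdig b x (u + (i + m : ℕ)) : ℚ) = ∑ j ∈ range m, c j * (zdig b x (u + (i + j : ℕ)) : ℚ)

open Classical in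
theorem main (D b : ℕ) (hb : 2 ≤ b) (δ : ℝ) (hδ : 0 < δ) (hδ1 : δ ≤ 1) :
    ∃ C : ℝ, 0 < C ∧ ∀ (a : ℝ) (P : Polynomial ℝ) (N : ℕ), 1 ≤ N → Real.exp (-(N : ℝ)) ≤ |a| →
      |a| ≤ Real.exp N → P.natDegree ≤ D →
      (((Icc 1 N).filter (fun n : ℕ => Low b N δ (1 / (16 * (1 + 3072 * 2 ^ D / δ ^ 2)))
        (|a| * Real.exp n) (a * Real.exp n + P.eval (n : ℝ)))).card : ℝ) ≤
        C * (N : ℝ) ^ (1 - (δ ^ 2 / 32) ^ 2 / (12800 * 2 ^ D)) := by
  obtain ⟨A, hA, harc⟩ := arcAny D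
  obtain ⟨C0, hC0, herrs⟩ := err_small (1 / 15) (by norm_num)
  have hbR : (2 : ℝ) ≤ b := by exact_mod_cast hb
  have hb0 : (0 : ℝ) < b := by linarith
  have hlb : 0.69 ≤ Real.log b := by
    have h1 := Real.log_two_gt_d9
    have h2 := Real.log_le_log (by norm_num) hbR
    linarith
  have hlb0 : 0 < Real.log b := by linarith
  obtain ⟨d', hd'⟩ : ∃ d' : ℝ, d' = δ ^ 2 / 32 := ⟨_, rfl⟩
  have hd'0 : 0 < d' := by rw [hd']; positivity
  have hd'1 : d' ≤ 1 := by rw [hd']; nlinarith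
  obtain ⟨l, hl⟩ : ∃ l : ℝ, l = 96 * 2 ^ D / d' := ⟨_, rfl⟩
  have hl0 : 0 < l := by rw [hl]; positivity
  have hle : 3072 * 2 ^ D / δ ^ 2 = l := by
    rw [hl, hd']
    field_simp
    ring
  obtain ⟨g, hg⟩ : ∃ g : ℝ, g = 1 / (16 * (1 + l)) := ⟨_, rfl⟩
  have hg0 : 0 < g := by rw [hg]; positivity
  have hgl : (1 + l) * g = 1 / 16 := by rw [hg]; field_simp
  have hg1 : g ≤ 1 := by nlinarith
  obtain ⟨η, hη⟩ : ∃ η : ℝ, η = δ * Real.log b / (8 * l) := ⟨_, rfl⟩
  have hη0 : 0 < η := by rw [hη]; positivity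
  have hηl : l * η = δ * Real.log b / 8 := by rw [hη]; field_simp
  obtain ⟨C1, hC1⟩ : ∃ C1 : ℝ, C1 = 15 * C0 + 1 := ⟨_, rfl⟩
  have hC10 : 0 < C1 := by rw [hC1]; positivity
  obtain ⟨K0, hK0⟩ : ∃ K0 : ℕ, K0 = ⌈12 / δ ^ 2⌉₊ := ⟨_, rfl⟩
  have hK0R : 12 / δ ^ 2 ≤ K0 := by rw [hK0]; exact Nat.le_ceil _
  obtain ⟨J, hJ⟩ : ∃ J : ℕ, J = ⌈(8 / δ + C1) * Real.log b / η⌉₊ := ⟨_, rfl⟩
  have hJR : (8 / δ + C1) * Real.log b / η ≤ J := by rw [hJ]; exact Nat.le_ceil _
  obtain ⟨N0, hN0⟩ : ∃ N0 : ℕ, N0 = ⌈4 / δ + 16 * (1 + l) * C1 / δ⌉₊ := ⟨_, rfl⟩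
  have hN0R : 4 / δ + 16 * (1 + l) * C1 / δ ≤ N0 := by rw [hN0]; exact Nat.le_ceil _
  rw [hle, ← hd', ← hg]
  obtain ⟨κ, hκ⟩ : ∃ κ : ℝ, κ = d' ^ 2 / (12800 * 2 ^ D) := ⟨_, rfl⟩
  rw [← hκ]
  have hκ1 : 0 ≤ 1 - κ := by
    have h1 : (1 : ℝ) ≤ 2 ^ D := one_le_pow₀ (by norm_num)
    have h2 : d' ^ 2 ≤ 1 := by nlinarith
    have : κ ≤ 1 := by
      rw [hκ, div_le_one (by positivity)]
      nlinarith
    linarith
  refine ⟨N0 + (2 * K0 + 1) * (J + 1) * (A / d' + 1), by positivity, ?_⟩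
  intro a P N hN ha1 ha2 hP
  have hNR : (1 : ℝ) ≤ N := by exact_mod_cast hN
  have h3N : 3 * (N : ℝ) ≤ 3 * N / δ := by
    rw [le_div_iff₀ hδ]
    exact mul_le_of_le_one_right (by linarith) hδ1
  have hNk : 1 ≤ (N : ℝ) ^ (1 - κ) := Real.one_le_rpow hNR hκ1
  have ha0 : 0 < |a| := (Real.exp_pos _).trans_le ha1
  have hane : a ≠ 0 := abs_pos.1 ha0
  have hla : Real.log |a| ≤ N := by
    have := Real.log_le_log ha0 ha2
    rwa [Real.log_exp] at this
  have hpart : 0 ≤ (2 * (K0 : ℝ) + 1) * (J + 1) * (A / d' + 1) * (N : ℝ) ^ (1 - κ) := by positivity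
  rcases lt_or_ge N N0 with hsmall | hlarge
  · have h1 : ((Icc 1 N).filter (fun n : ℕ => Low b N δ g
        (|a| * Real.exp n) (a * Real.exp n + P.eval (n : ℝ)))).card ≤ N0 := by
      refine (card_filter_le _ _).trans ?_
      rw [Nat.card_Icc]
      omega
    have h2 : (((Icc 1 N).filter (fun n : ℕ => Low b N δ g
        (|a| * Real.exp n) (a * Real.exp n + P.eval (n : ℝ)))).card : ℝ) ≤ N0 := by exact_mod_cast h1
    have h3 : (N0 : ℝ) * 1 ≤ N0 * (N : ℝ) ^ (1 - κ) :=
      mul_le_mul_of_nonneg_left hNk (Nat.cast_nonneg _)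
    rw [add_mul]
    linarith
  have hlargeR : (N0 : ℝ) ≤ N := by exact_mod_cast hlarge
  have hNbig1 : 4 ≤ δ * N := by
    have h1 : 4 / δ ≤ N := by
      have : 0 ≤ 16 * (1 + l) * C1 / δ := by positivity
      linarith
    rw [div_le_iff₀ hδ] at h1
    linarith
  have hNbig2 : 16 * (1 + l) * C1 ≤ δ * N := by
    have h1 : 16 * (1 + l) * C1 / δ ≤ N := by
      have : 0 ≤ 4 / δ := by positivity
      linarith
    rw [div_le_iff₀ hδ] at h1
    linarith
  obtain ⟨H, hH⟩ : ∃ H : ℕ, H = ⌊δ * N / 2⌋₊ := ⟨_, rfl⟩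
  have hH1 : (H : ℝ) ≤ δ * N / 2 := by rw [hH]; exact Nat.floor_le (by positivity)
  have hH2 : δ * N / 4 ≤ H := by
    have := Nat.lt_floor_add_one (δ * N / 2)
    rw [← hH] at this
    linarith
  have hHpos : (0 : ℝ) < H := by linarith
  have hHZ : (0 : ℤ) < H := by exact_mod_cast hHpos
  -- the covering
  have hcov : (Icc 1 N).filter (fun n : ℕ => Low b N δ g
      (|a| * Real.exp n) (a * Real.exp n + P.eval (n : ℝ))) ⊆
      (Icc (-(K0 : ℤ)) K0).biUnion (fun k => (range (J + 1)).biUnion (fun j =>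
        (Icc 1 N).filter (fun n : ℕ => 1 ≤ |a * (b : ℝ) ^ (H * k)| * Real.exp n ∧
          Exc d' (a * (b : ℝ) ^ (H * k)) (Real.exp (η * N * j)) (96 * 2 ^ D / d')
            (Polynomial.C ((b : ℝ) ^ (H * k)) * P) n))) := by
    intro n hn
    rw [mem_filter, mem_Icc] at hn
    obtain ⟨⟨hn1, hn2⟩, u, L, m, c, hu1, hL1, huL, hm, hrec⟩ := hn
    have hnR : (n : ℝ) ≤ N := by exact_mod_cast hn2
    have hLpos : (0 : ℝ) < L := by linarith
    -- the net point
    obtain ⟨k, hk⟩ : ∃ k : ℤ, k = ⌈(u : ℝ) / H⌉ := ⟨_, rfl⟩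
    have hk1 : (u : ℝ) ≤ H * k := by
      have := Int.le_ceil ((u : ℝ) / H)
      rw [← hk, div_le_iff₀ hHpos] at this
      linarith
    have hk2 : (H : ℝ) * k ≤ u + H := by
      have := Int.ceil_lt_add_one ((u : ℝ) / H)
      rw [← hk] at this
      have h2 := mul_lt_mul_of_pos_left this hHpos
      rw [mul_add, mul_div_cancel₀ _ hHpos.ne'] at h2
      linarith
    have hk1Z : u ≤ H * k := by exact_mod_cast hk1
    obtain ⟨v, hv⟩ : ∃ v : ℕ, (H : ℤ) * k = u + v := ⟨(H * k - u).toNat, by omega⟩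
    have hvR : (H : ℝ) * k = u + v := by exact_mod_cast hv
    have hvL : (v : ℝ) ≤ L / 2 := by linarith
    have hvLN : v ≤ L := by
      have : (v : ℝ) ≤ L := by linarith
      exact_mod_cast this
    -- range of `u`
    have hulow : -(3 * (N : ℝ)) ≤ u := by
      have h1 := Real.log_le_log one_pos hu1
      rw [Real.log_one, Real.log_mul (by positivity) (by positivity),
        Real.log_mul ha0.ne' (Real.exp_pos _).ne', Real.log_exp, Real.log_zpow] at h1
      by_contra hcon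
      push Not at hcon
      have h2 := mul_lt_mul_of_pos_right hcon hlb0
      have h3 := mul_le_mul_of_nonneg_left hlb (by linarith : 0 ≤ 3 * (N : ℝ))
      linarith
    have hkle : |k| ≤ (K0 : ℤ) := by
      have h1 : |(k : ℝ)| ≤ K0 := by
        refine le_trans ?_ hK0R
        rw [abs_le]
        have hδ2 : 0 < δ ^ 2 := by positivity
        constructor
        · have h2 : -(3 * (N : ℝ)) ≤ H * k := by linarith
          by_contra hcon
          push Not at hcon
          have h3 : (H : ℝ) * k < H * (-(12 / δ ^ 2)) := mul_lt_mul_of_pos_left hcon hHpos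
          have h4 : (δ * N / 4) * (12 / δ ^ 2) ≤ H * (12 / δ ^ 2) :=
            mul_le_mul_of_nonneg_right hH2 (by positivity)
          have h5 : (δ * N / 4) * (12 / δ ^ 2) = 3 * N / δ := by field_simp; ring
          linarith
        · have h2 : (H : ℝ) * k ≤ N / δ := by linarith
          by_contra hcon
          push Not at hcon
          have h3 : H * (12 / δ ^ 2) < (H : ℝ) * k := mul_lt_mul_of_pos_left hcon hHpos
          have h4 : (δ * N / 4) * (12 / δ ^ 2) ≤ H * (12 / δ ^ 2) :=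
            mul_le_mul_of_nonneg_right hH2 (by positivity)
          have h5 : (δ * N / 4) * (12 / δ ^ 2) = 3 * (N / δ) := by field_simp; ring
          have h6 : (0 : ℝ) < N / δ := by positivity
          linarith
      exact_mod_cast h1
    rw [mem_biUnion]
    refine ⟨k, by rw [mem_Icc]; exact abs_le.1 hkle, ?_⟩
    -- the recurrence on the shortened block
    obtain ⟨y, hy⟩ : ∃ y : ℝ, y = (a * Real.exp n + P.eval (n : ℝ)) * (b : ℝ) ^ ((H : ℤ) * k) :=
      ⟨_, rfl⟩
    have hydig : ∀ i : ℕ, zdig b (a * Real.exp n + P.eval (n : ℝ)) (u + (v + i : ℕ)) = dig y b i := by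
      intro i
      rw [hy, ← zdig_eq b hb, hv]
      congr 1
      push_cast
      ring
    obtain ⟨q, hq1, p, hq2, hp⟩ := core3 b hb y (L - v) m c (by
      intro i hi
      have h1 := hrec (v + (i + 1)) (by omega) (by omega)
      rw [show v + (i + 1) + m = v + (i + m + 1) by ring, hydig] at h1
      rw [h1]
      refine Finset.sum_congr rfl fun j _ => ?_
      rw [show v + (i + 1) + j = v + (i + j + 1) by ring, hydig])
    obtain ⟨M, hM⟩ : ∃ M : ℝ, M = (m : ℝ) + 15 * err m + 1 := ⟨_, rfl⟩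
    rw [← hM] at hq2 hp
    have hMle : M ≤ 2 * m + C1 := by
      have := herrs m
      rw [hM, hC1]
      linarith
    have hM0 : 0 ≤ M := by
      have h1 := err_ge m
      have h2 : (0 : ℝ) ≤ m := Nat.cast_nonneg m
      rw [hM]
      linarith
    obtain ⟨j, hj⟩ : ∃ j : ℕ, j = ⌈M * Real.log b / (η * N)⌉₊ := ⟨_, rfl⟩
    have hηN : 0 < η * N := by positivity
    have hj1 : M * Real.log b ≤ η * N * j := by
      have := Nat.le_ceil (M * Real.log b / (η * N))
      rw [← hj, div_le_iff₀ hηN] at this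
      linarith
    have hj2 : η * N * j ≤ M * Real.log b + η * N := by
      have := Nat.ceil_lt_add_one (show 0 ≤ M * Real.log b / (η * N) by positivity)
      rw [← hj] at this
      have h2 := mul_lt_mul_of_pos_left this hηN
      rw [mul_add, mul_div_cancel₀ _ hηN.ne', mul_one] at h2
      exact h2.le
    have hLle : (L : ℝ) ≤ 4 * N / δ := by
      have h2 : 4 * (N : ℝ) / δ = N / δ + 3 * N / δ := by ring
      linarith
    have hjJ : j ≤ J := by
      rw [hj]
      apply Nat.ceil_le.2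
      refine le_trans ?_ hJR
      rw [div_le_div_iff₀ hηN hη0]
      have h1 : M ≤ (8 / δ + C1) * N := by
        have h2 : (m : ℝ) ≤ L := hm.trans (mul_le_of_le_one_left hLpos.le hg1)
        have h3 : 2 * (4 * N / δ) = 8 / δ * N := by ring
        have h4 : C1 * 1 ≤ C1 * N := mul_le_mul_of_nonneg_left hNR hC10.le
        rw [add_mul]
        linarith
      have h2 := mul_le_mul_of_nonneg_right h1 (by positivity : 0 ≤ Real.log b * η)
      linarith
    rw [mem_biUnion]
    refine ⟨j, by rw [mem_range]; omega, ?_⟩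
    rw [mem_filter, mem_Icc]
    have hba : |a * (b : ℝ) ^ ((H : ℤ) * k)| = |a| * (b : ℝ) ^ ((H : ℤ) * k) := by
      rw [abs_mul, abs_of_pos (by positivity : (0 : ℝ) < (b : ℝ) ^ ((H : ℤ) * k))]
    have hs1 : 1 ≤ |a * (b : ℝ) ^ ((H : ℤ) * k)| * Real.exp n := by
      rw [hba]
      calc 1 ≤ |a| * Real.exp n * (b : ℝ) ^ u := hu1
        _ ≤ |a| * Real.exp n * (b : ℝ) ^ ((H : ℤ) * k) := by
            apply mul_le_mul_of_nonneg_left _ (by positivity)
            exact zpow_le_zpow_right₀ (by linarith) hk1Z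
        _ = |a| * (b : ℝ) ^ ((H : ℤ) * k) * Real.exp n := by ring
    refine ⟨⟨hn1, hn2⟩, hs1, q, p, hq1, ?_, ?_⟩
    · refine hq2.trans ?_
      rw [Real.rpow_def_of_pos hb0]
      apply Real.exp_le_exp.2
      linarith
    · have hyv : a * (b : ℝ) ^ ((H : ℤ) * k) * Real.exp n +
          (Polynomial.C ((b : ℝ) ^ ((H : ℤ) * k)) * P).eval (n : ℝ) = y := by
        rw [hy, Polynomial.eval_mul, Polynomial.eval_C]
        ring
      rw [hyv]
      have hq1R : (1 : ℝ) ≤ q := by exact_mod_cast hq1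
      have h1 : |y - p / q| ≤ (b : ℝ) ^ (M - (L - v : ℕ)) := by
        have e1 : |y - p / q| = |(q : ℝ) * y - p| / q := by
          rw [eq_div_iff (by linarith), ← abs_of_pos (by linarith : (0 : ℝ) < q), ← abs_mul,
            abs_of_pos (by linarith : (0 : ℝ) < q)]
          congr 1
          field_simp
        rw [e1]
        exact (div_le_self (abs_nonneg _) hq1R).trans hp
      refine h1.trans_lt ?_
      rw [← hl, ← Real.exp_mul, Real.rpow_def_of_pos hb0,
        Real.rpow_def_of_pos (by linarith), ← Real.exp_add]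
      apply Real.exp_lt_exp.2
      have hLv : ((L - v : ℕ) : ℝ) = L - v := by rw [Nat.cast_sub hvLN]
      rw [hLv]
      have hlog : Real.log (|a * (b : ℝ) ^ ((H : ℤ) * k)| * Real.exp n) ≤
          2 * N + N / δ * Real.log b := by
        rw [hba, Real.log_mul (by positivity) (Real.exp_pos _).ne',
          Real.log_mul ha0.ne' (by positivity), Real.log_exp, Real.log_zpow]
        have h2 : (((H : ℤ) * k : ℤ) : ℝ) ≤ N / δ := by
          push_cast
          linarith
        have h3 := mul_le_mul_of_nonneg_right h2 hlb0.le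
        linarith
      have hdlog : d' * (2 * N + N / δ * Real.log b) ≤ δ * N * Real.log b / 8 := by
        have h2 : 2 * (N : ℝ) + N / δ * Real.log b ≤ 4 * N / δ * Real.log b := by
          have h3 : 2 * (N : ℝ) ≤ 3 * N / δ * Real.log b := by
            have h5 := mul_le_mul_of_nonneg_right h3N hlb0.le
            have h6 := mul_le_mul_of_nonneg_left hlb (by linarith : 0 ≤ 3 * (N : ℝ))
            linarith
          have h6 : 4 * (N : ℝ) / δ * Real.log b = N / δ * Real.log b + 3 * N / δ * Real.log b := by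
            ring
          linarith
        calc d' * (2 * N + N / δ * Real.log b) ≤ d' * (4 * N / δ * Real.log b) :=
              mul_le_mul_of_nonneg_left h2 hd'0.le
          _ = δ * N * Real.log b / 8 := by rw [hd']; field_simp; ring
      have h2 := mul_le_mul_of_nonneg_left hlog hd'0.le
      have h3 := mul_le_mul_of_nonneg_left hj2 hl0.le
      have h4 : l * (M * Real.log b + η * N) = l * M * Real.log b + δ * N * Real.log b / 8 := by
        rw [mul_add, ← mul_assoc l η, hηl]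
        ring
      have h5 : (1 + l) * M ≤ L / 8 + (1 + l) * C1 := by
        have h6 : (1 + l) * M ≤ (1 + l) * (2 * m + C1) :=
          mul_le_mul_of_nonneg_left hMle (by linarith)
        have h7 : (1 + l) * m ≤ (1 + l) * (g * L) := mul_le_mul_of_nonneg_left hm (by linarith)
        have h8 : (1 + l) * (g * L) = L / 16 := by rw [← mul_assoc, hgl]; ring
        have h9 : (1 + l) * (2 * m + C1) = 2 * ((1 + l) * m) + (1 + l) * C1 := by ring
        linarith
      have h9 : (1 + l) * C1 ≤ L / 16 := by linarith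
      have h10 : (1 + l) * M * Real.log b + δ * N * Real.log b / 4 <
          ((L : ℝ) - v) * Real.log b := by
        have h11 : (1 + l) * M + δ * N / 4 < (L : ℝ) - v := by linarith
        have := mul_lt_mul_of_pos_right h11 hlb0
        linarith
      have h12 : (1 + l) * M * Real.log b = M * Real.log b + l * M * Real.log b := by ring
      have h13 : Real.log b * (M - ((L : ℝ) - v)) =
          M * Real.log b - ((L : ℝ) - v) * Real.log b := by ring
      have h14 : Real.log (|a * (b : ℝ) ^ ((H : ℤ) * k)| * Real.exp n) * -d' + η * N * j * -l =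
          -(d' * Real.log (|a * (b : ℝ) ^ ((H : ℤ) * k)| * Real.exp n)) - l * (η * N * j) := by ring
      rw [h13, h14]
      linarith
  have hcard := (card_le_card hcov).trans (card_biUnion_le.trans
    (Finset.sum_le_sum fun k _ => card_biUnion_le))
  have hcardR : (((Icc 1 N).filter (fun n : ℕ => Low b N δ g
      (|a| * Real.exp n) (a * Real.exp n + P.eval (n : ℝ)))).card : ℝ) ≤
      ∑ k ∈ Icc (-(K0 : ℤ)) K0, ∑ j ∈ range (J + 1),
        (((Icc 1 N).filter (fun n : ℕ => 1 ≤ |a * (b : ℝ) ^ (H * k)| * Real.exp n ∧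
          Exc d' (a * (b : ℝ) ^ (H * k)) (Real.exp (η * N * j)) (96 * 2 ^ D / d')
            (Polynomial.C ((b : ℝ) ^ (H * k)) * P) n)).card : ℝ) := by
    exact_mod_cast hcard
  have hbound : ∀ k ∈ Icc (-(K0 : ℤ)) K0, ∀ j ∈ range (J + 1),
      (((Icc 1 N).filter (fun n : ℕ => 1 ≤ |a * (b : ℝ) ^ (H * k)| * Real.exp n ∧
          Exc d' (a * (b : ℝ) ^ (H * k)) (Real.exp (η * N * j)) (96 * 2 ^ D / d')
            (Polynomial.C ((b : ℝ) ^ (H * k)) * P) n)).card : ℝ) ≤
        (A / d' + 1) * (N : ℝ) ^ (1 - κ) := by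
    intro k _ j _
    have h1 := harc d' (a * (b : ℝ) ^ ((H : ℤ) * k)) (Real.exp (η * N * j))
      (Polynomial.C ((b : ℝ) ^ ((H : ℤ) * k)) * P) N hd'0 hd'1
      (mul_ne_zero hane (by positivity)) (Real.one_le_exp (by positivity))
      ((Polynomial.natDegree_C_mul_le _ _).trans hP) hN
    rw [← hκ] at h1
    rw [add_mul, one_mul]
    linarith
  have hsum := Finset.sum_le_sum fun k hk => Finset.sum_le_sum (hbound k hk)
  simp only [Finset.sum_const, card_range, nsmul_eq_mul, Int.card_Icc] at hsum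
  have hcK : (((K0 : ℤ) + 1 - -(K0 : ℤ)).toNat : ℝ) = 2 * K0 + 1 := by
    have : ((K0 : ℤ) + 1 - -(K0 : ℤ)).toNat = 2 * K0 + 1 := by omega
    rw [this]
    push_cast
    ring
  rw [hcK] at hsum
  have h0 : 0 ≤ (N0 : ℝ) * (N : ℝ) ^ (1 - κ) := by positivity
  push_cast at hsum
  rw [add_mul]
  linarith

end Pool.Agent.Y928.EN
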