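import Pool.Agent.W47.JL.Single

/-!
# A short recurrence of the digits of a real number gives a good rational approximation
-/

set_option autoImplicit false

namespace Pool.Agent.Y928.EN

open Finset Polynomial
open Pool.Agent.H831R3.LC (W dig dig_abs)
open Pool.Agent.W47.JL

lemma triv2 (x e f : ℝ) (b : ℕ) (hb : 2 ≤ b) (he : 0 ≤ e) (hf : 0 ≤ f) :
    ∃ q : ℕ, 1 ≤ q ∧ ∃ p : ℤ, (q : ℝ) ≤ (b : ℝ) ^ e ∧ |(q : ℝ) * x - p| ≤ (b : ℝ) ^ f := by
  refine ⟨1, le_rfl, round x, ?_⟩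
  have hbR : (2 : ℝ) ≤ b := by exact_mod_cast hb
  have h1 := abs_sub_round x
  have h2 : (1 : ℝ) ≤ (b : ℝ) ^ e := Real.one_le_rpow (by linarith) he
  have h3 : (1 : ℝ) ≤ (b : ℝ) ^ f := Real.one_le_rpow (by linarith) hf
  push_cast
  rw [one_mul]
  constructor <;> linarith

/-- a recurrence of the first `L` digits gives a rational approximation -/
theorem core3 (b : ℕ) (hb : 2 ≤ b) (x : ℝ) (L m : ℕ) (c : ℕ → ℚ)
    (hc : ∀ i, i + m < L → (dig x b (i + m + 1) : ℚ) = ∑ l ∈ range m, c l * (dig x b (i + l + 1) : ℚ)) :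
    ∃ q : ℕ, 1 ≤ q ∧ ∃ p : ℤ, (q : ℝ) ≤ (b : ℝ) ^ ((m : ℝ) + 15 * err m + 1) ∧
      |(q : ℝ) * x - p| ≤ (b : ℝ) ^ (((m : ℝ) + 15 * err m + 1) - L) := by
  obtain ⟨k0, K, hk0, hK, hpar⟩ := params m
  have hbR : (2 : ℝ) ≤ b := by exact_mod_cast hb
  have hb0 : (0 : ℝ) < b := by linarith
  have hlb0 : 0 < Real.log b := Real.log_pos (by linarith)
  have hpar1 : M1 b m k0 K ≤ m + 15 * err m := hpar b hbR
  have hM1 := M1_ge b m k0 K hb
  have hm0 : (0 : ℝ) ≤ m := Nat.cast_nonneg m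
  have hk00 : (0 : ℝ) ≤ k0 := Nat.cast_nonneg k0
  have herr := err_ge m
  have htriv : (L : ℝ) ≤ M1 b m k0 K + 1 →
      ∃ q : ℕ, 1 ≤ q ∧ ∃ p : ℤ, (q : ℝ) ≤ (b : ℝ) ^ ((m : ℝ) + 15 * err m + 1) ∧
      |(q : ℝ) * x - p| ≤ (b : ℝ) ^ (((m : ℝ) + 15 * err m + 1) - L) := by
    intro h
    exact triv2 x _ _ b hb (by linarith) (by linarith)
  by_cases hL : m + k0 ≤ L
  swap
  · apply htriv
    have : (L : ℝ) ≤ m + k0 := by exact_mod_cast (by omega : L ≤ m + k0)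
    linarith
  by_cases hbig : (m + k0 + 1) * ((m + 1 + k0) * b) ^ K * b < b ^ (L - (m + k0))
  swap
  · apply htriv
    push Not at hbig
    have h1 : ((b : ℝ) ^ (L - (m + k0))) ≤
        ((m : ℝ) + k0 + 1) * (((m : ℝ) + 1 + k0) * b) ^ K * b := by exact_mod_cast hbig
    have h2 := Real.log_le_log (by positivity) h1
    rw [Real.log_pow, Real.log_mul (by positivity) (by positivity)] at h2
    have h3 : ((L - (m + k0) : ℕ) : ℝ) = L - (m + k0) := by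
      rw [Nat.cast_sub hL]; push_cast; ring
    rw [h3] at h2
    have h4 : (L : ℝ) - (m + k0) ≤
        Real.log (((m : ℝ) + k0 + 1) * (((m : ℝ) + 1 + k0) * b) ^ K) / Real.log b + 1 := by
      rw [← sub_le_iff_le_add, le_div_iff₀ hlb0]
      linarith
    unfold M1
    linarith
  -- truncate
  obtain ⟨a, ha⟩ : ∃ a : ℕ → ℤ, a = fun i => if i < L then dig x b (i + 1) else 0 := ⟨_, rfl⟩
  have ha1 : ∀ i, i < L → a i = dig x b (i + 1) := by
    intro i hi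
    rw [ha]; simp [hi]
  have ha2 : ∀ i, |a i| ≤ b := by
    intro i
    by_cases hi : i < L
    · rw [ha1 i hi]; exact dig_abs _ b (by omega) _
    · rw [ha]; simp [hi]
  obtain ⟨t, ht0, htd, htH, htr⟩ := Pool.Agent.W928.JL.small 1 (fun _ => a) b (by omega)
    (fun _ => ha2) m k0 (L - (m + k0)) L K hk0 hK
    (by omega) c (fun _ i hi => by
      rw [ha1 _ hi, hc i hi]
      refine Finset.sum_congr rfl fun l hl => ?_
      rw [mem_range] at hl
      rw [ha1 _ (by omega)])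
  obtain ⟨t', htd', htH', htr', ht0'⟩ := Pool.Agent.W639.JL.desc 1 (fun _ => a) b b
    (((m + 1 + k0) * b) ^ K) (m + k0) (L - (m + k0)) hb (fun _ => ha2) hbig t htd ht0 htH htr
  obtain ⟨p, hp⟩ : ∃ p : ℤ, |((t'.eval (b : ℤ) : ℤ) : ℝ) * (b : ℝ) ^ 0 * x - p| *
      (b : ℝ) ^ (L - (m + k0) - 0) ≤ ((m + k0 : ℕ) + 1) * (((m + 1 + k0) * b) ^ K : ℕ) :=
    Pool.Agent.W45.JL.approx x b (((m + 1 + k0) * b) ^ K) (L - (m + k0)) (m + k0) 0 L
      a t' (by omega) htH' htd' (htr' 0) (fun i _ hi => by rw [ha1 i hi])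
      (by omega) (by omega)
  obtain ⟨q, hq⟩ : ∃ q : ℕ, q = (t'.eval (b : ℤ)).natAbs := ⟨_, rfl⟩
  have hq1 : 1 ≤ q := by rw [hq]; exact Int.natAbs_pos.2 ht0'
  have hqR : (q : ℝ) = |((t'.eval (b : ℤ) : ℤ) : ℝ)| := by
    rw [hq, Nat.cast_natAbs, Int.cast_abs]
  have hq1R : (1 : ℝ) ≤ q := by exact_mod_cast hq1
  obtain ⟨X, hX⟩ : ∃ X : ℝ, X = ((m : ℝ) + k0 + 1) * (((m : ℝ) + 1 + k0) * b) ^ K := ⟨_, rfl⟩
  have hX0 : 0 < X := by rw [hX]; positivity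
  have hXe : (((m + k0 : ℕ) : ℝ) + 1) * (((m + 1 + k0) * b) ^ K : ℕ) = X := by
    rw [hX]; push_cast; ring
  have hqle : (q : ℝ) ≤ X * (b : ℝ) ^ (m + k0) := by
    have h1 := eval_le t' (((m + 1 + k0) * b) ^ K) (m + k0) b (by omega) htH' htd'
    rw [hqR, ← hXe]
    exact_mod_cast h1
  have hbM : (b : ℝ) ^ (M1 b m k0 K) = X * (b : ℝ) ^ (m + k0) := by
    have e : M1 b m k0 K = ((m + k0 : ℕ) : ℝ) + Real.log X / Real.log b := by
      rw [M1, ← hX]; push_cast; ring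
    rw [e, Real.rpow_add hb0, Real.rpow_natCast, mul_comm]
    congr 1
    rw [Real.rpow_def_of_pos hb0, mul_div_cancel₀ _ hlb0.ne', Real.exp_log hX0]
  have hqx : ∃ p' : ℤ, |(q : ℝ) * x - p'| =
      |((t'.eval (b : ℤ) : ℤ) : ℝ) * (b : ℝ) ^ 0 * x - p| := by
    rcases abs_cases ((t'.eval (b : ℤ) : ℤ) : ℝ) with ⟨h1, _⟩ | ⟨h1, _⟩
    · exact ⟨p, by rw [hqR, h1, pow_zero, mul_one]⟩
    · refine ⟨-p, ?_⟩
      rw [hqR, h1, ← abs_neg]
      congr 1
      push_cast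
      ring
  obtain ⟨p', hp'⟩ := hqx
  refine ⟨q, hq1, p', ?_, ?_⟩
  · refine (hqle.trans_eq hbM.symm).trans ?_
    exact Real.rpow_le_rpow_of_exponent_le (by linarith) (by linarith)
  · rw [hp']
    rw [hXe, Nat.sub_zero] at hp
    have h1 : (b : ℝ) ^ (M1 b m k0 K - L) = X / (b : ℝ) ^ (L - (m + k0)) := by
      rw [Real.rpow_sub hb0, hbM, Real.rpow_natCast]
      have : (b : ℝ) ^ L = (b : ℝ) ^ (L - (m + k0)) * (b : ℝ) ^ (m + k0) := by
        rw [← pow_add, Nat.sub_add_cancel hL]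
      rw [this]
      field_simp
    calc _ ≤ X / (b : ℝ) ^ (L - (m + k0)) := by rw [le_div_iff₀ (by positivity)]; exact hp
      _ = (b : ℝ) ^ (M1 b m k0 K - L) := h1.symm
      _ ≤ _ := Real.rpow_le_rpow_of_exponent_le (by linarith) (by linarith)

/-- the error term is small -/
theorem err_small (η : ℝ) (hη : 0 < η) : ∃ C : ℝ, 0 ≤ C ∧ ∀ m : ℕ, err m ≤ η * m + C := by
  refine ⟨|(3 * η + (-1 - 2 * Real.log η) / η) / 2|, abs_nonneg _, fun m => ?_⟩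
  have hm0 : (0 : ℝ) ≤ m := Nat.cast_nonneg m
  have hl0 : 0 ≤ Real.log ((m : ℝ) + 2) := Real.log_nonneg (by linarith)
  have h1 : err m ≤ (η * (m + 1) + Real.log ((m : ℝ) + 2) / η) / 2 := by
    unfold err
    apply Real.sqrt_le_iff.2
    constructor
    · positivity
    · have h2 : 0 ≤ (η * (m + 1) - Real.log ((m : ℝ) + 2) / η) ^ 2 := sq_nonneg _
      have h3 : (η * (m + 1)) * (Real.log ((m : ℝ) + 2) / η) = ((m : ℝ) + 1) * Real.log ((m : ℝ) + 2) := by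
        field_simp
      nlinarith
  have h2 : Real.log ((m : ℝ) + 2) ≤ η ^ 2 * (m + 2) - 1 - 2 * Real.log η := by
    have h3 := Real.log_le_sub_one_of_pos (show 0 < η ^ 2 * ((m : ℝ) + 2) by positivity)
    rw [Real.log_mul (by positivity) (by positivity), Real.log_pow] at h3
    push_cast at h3
    linarith
  have h3 : Real.log ((m : ℝ) + 2) / η ≤ η * (m + 2) + (-1 - 2 * Real.log η) / η := by
    rw [div_le_iff₀ hη, add_mul, div_mul_cancel₀ _ hη.ne']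
    linarith
  have h4 := le_abs_self ((3 * η + (-1 - 2 * Real.log η) / η) / 2)
  linarith

end Pool.Agent.Y928.EN
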